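import Pool.Agent.H7.HZ.Stmts

/-! Board hz12 (MP_fd41b2_co), row NS1. -/

set_option autoImplicit false

open Finset

namespace Pool.HZ7

open Pool.Agent.H23.KT Pool.Agent.H46.KW Pool.KQ Pool.GT7 Pool.GU7

theorem ns1_coeff (c : ℕ) (Q : Polynomial ℕ) (k : ℕ) :
    ((1 + Polynomial.C c * Polynomial.X) * Q).coeff (k + 1) = Q.coeff (k + 1) + c * Q.coeff k := by
  rw [add_mul, one_mul, Polynomial.coeff_add, mul_assoc, Polynomial.coeff_C_mul,
    Polynomial.coeff_X_mul]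

theorem ns1_coeff_zero (c : ℕ) (Q : Polynomial ℕ) :
    ((1 + Polynomial.C c * Polynomial.X) * Q).coeff 0 = Q.coeff 0 := by
  rw [add_mul, one_mul, Polynomial.coeff_add, mul_assoc, Polynomial.coeff_C_mul,
    Polynomial.coeff_X_mul_zero, mul_zero, add_zero]

theorem ns1_newton : ∀ (m : ℕ) (n : Fin m → ℕ),
    (es n 0 : ℤ) = 1 ∧ (es n 1 : ℤ) = ∑ i, (n i : ℤ) ∧
      2 * (es n 2 : ℤ) = (∑ i, (n i : ℤ)) ^ 2 - ∑ i, (n i : ℤ) ^ 2 ∧
      6 * (es n 3 : ℤ) = (∑ i, (n i : ℤ)) ^ 3 - 3 * (∑ i, (n i : ℤ)) * (∑ i, (n i : ℤ) ^ 2) +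
        2 * ∑ i, (n i : ℤ) ^ 3 := by
  intro m
  induction m with
  | zero =>
    intro n
    simp [es, Polynomial.coeff_one]
  | succ m ih =>
    intro n
    obtain ⟨h0, h1, h2, h3⟩ := ih (fun i => n i.succ)
    have g0 : es n 0 = es (fun i : Fin m => n i.succ) 0 := by
      unfold es
      rw [Fin.prod_univ_succ, ns1_coeff_zero]
    have g1 : ∀ k, es n (k + 1) = es (fun i : Fin m => n i.succ) (k + 1) +
        n 0 * es (fun i : Fin m => n i.succ) k := by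
      intro k
      unfold es
      rw [Fin.prod_univ_succ, ns1_coeff]
    have e1 : (es n 1 : ℤ) = es (fun i : Fin m => n i.succ) 1 +
        n 0 * es (fun i : Fin m => n i.succ) 0 := by exact_mod_cast g1 0
    have e2 : (es n 2 : ℤ) = es (fun i : Fin m => n i.succ) 2 +
        n 0 * es (fun i : Fin m => n i.succ) 1 := by exact_mod_cast g1 1
    have e3 : (es n 3 : ℤ) = es (fun i : Fin m => n i.succ) 3 +
        n 0 * es (fun i : Fin m => n i.succ) 2 := by exact_mod_cast g1 2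
    rw [Fin.sum_univ_succ, Fin.sum_univ_succ, Fin.sum_univ_succ]
    refine ⟨by rw [g0]; exact h0, ?_, ?_, ?_⟩
    · rw [e1, h1, h0]
      ring
    · rw [e2, mul_add, h2, h1]
      ring
    · have h2' : 6 * ((n 0 : ℤ) * (es (fun i : Fin m => n i.succ) 2 : ℤ)) =
          3 * n 0 * (2 * (es (fun i : Fin m => n i.succ) 2 : ℤ)) := by ring
      rw [e3, mul_add, h3, h2', h2]
      ring

/-- The value of `Psi` through the power sums of `σ`. -/
theorem ns1_es (m a : ℕ) (n σ : Fin m → ℕ) (h : ∀ j, n j + σ j = a + 1) :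
    6 * (es n 3 : ℝ) = (m * (a + 1) - ∑ j, (σ j : ℝ)) ^ 3 -
      3 * (m * (a + 1) - ∑ j, (σ j : ℝ)) * (m * ((a : ℝ) + 1) ^ 2 -
        2 * (a + 1) * ∑ j, (σ j : ℝ) + ∑ j, (σ j : ℝ) ^ 2) +
      2 * (m * ((a : ℝ) + 1) ^ 3 - 3 * (a + 1) ^ 2 * ∑ j, (σ j : ℝ) +
        3 * (a + 1) * ∑ j, (σ j : ℝ) ^ 2 - ∑ j, (σ j : ℝ) ^ 3) := by
  have hn : ∀ j, (n j : ℝ) = a + 1 - σ j := fun j => by
    have : ((n j + σ j : ℕ) : ℝ) = ((a + 1 : ℕ) : ℝ) := by rw [h j]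
    push_cast at this
    linarith
  have h1 := (ns1_newton m n).2.2.2
  have h2 : 6 * (es n 3 : ℝ) = (∑ i, (n i : ℝ)) ^ 3 -
      3 * (∑ i, (n i : ℝ)) * (∑ i, (n i : ℝ) ^ 2) + 2 * ∑ i, (n i : ℝ) ^ 3 := by
    exact_mod_cast h1
  have s1 : ∑ i, (n i : ℝ) = m * (a + 1) - ∑ j, (σ j : ℝ) := by
    rw [sum_congr rfl fun i _ => hn i, sum_sub_distrib]
    simp
    ring
  have s2 : ∑ i, (n i : ℝ) ^ 2 = m * ((a : ℝ) + 1) ^ 2 -
      2 * (a + 1) * ∑ j, (σ j : ℝ) + ∑ j, (σ j : ℝ) ^ 2 := by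
    rw [mul_sum, sum_congr rfl fun i _ => show (n i : ℝ) ^ 2 =
      ((a : ℝ) + 1) ^ 2 - 2 * (a + 1) * σ i + (σ i : ℝ) ^ 2 by rw [hn i]; ring,
      sum_add_distrib, sum_sub_distrib]
    simp
  have s3 : ∑ i, (n i : ℝ) ^ 3 = m * ((a : ℝ) + 1) ^ 3 - 3 * (a + 1) ^ 2 * ∑ j, (σ j : ℝ) +
        3 * (a + 1) * ∑ j, (σ j : ℝ) ^ 2 - ∑ j, (σ j : ℝ) ^ 3 := by
    rw [mul_sum, mul_sum, sum_congr rfl fun i _ => show (n i : ℝ) ^ 3 =
      ((a : ℝ) + 1) ^ 3 - 3 * (a + 1) ^ 2 * σ i + 3 * (a + 1) * (σ i : ℝ) ^ 2 - (σ i : ℝ) ^ 3 by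
        rw [hn i]; ring,
      sum_sub_distrib, sum_add_distrib, sum_sub_distrib]
    simp
  rw [h2, s1, s2, s3]

theorem NS1_thm (hEST : ESTStmt) : NS1Stmt := by
  intro p r hpr
  refine ⟨p + 4, fun a ha n σ hn hσ => ?_⟩
  have hr : r ≤ p + 3 := by have := hpr.rp; omega
  -- the model
  let τ : Fin (p + 4) → ℕ := fun j => if (j : ℕ) < p + 3 - r then 1 else 0
  let k : Fin (p + 4) → ℕ := fun j => if (j : ℕ) < p + 3 - r then a else a + 1
  have hk : ∀ j, k j + τ j = a + 1 := fun j => by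
    show (if _ then _ else _) + (if _ then _ else _) = _
    split_ifs <;> rfl
  have hτ : ∑ j, τ j = p + 3 - r := by
    show ∑ j : Fin (p + 4), (if (j : ℕ) < p + 3 - r then 1 else 0) = _
    rw [Fin.sum_univ_eq_sum_range (fun j => if j < p + 3 - r then 1 else 0) (p + 4)]
    rw [← Finset.sum_filter, Finset.sum_const, smul_eq_mul, mul_one]
    have : (range (p + 4)).filter (fun j => j < p + 3 - r) = range (p + 3 - r) := by
      ext j
      simp only [mem_filter, mem_range]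
      omega
    rw [this, card_range]
  have hksum : ∑ j, k j = (p + 4) * a + (r + 1) := by
    have h1 : ∑ j, k j + ∑ j, τ j = (p + 4) * (a + 1) := by
      rw [← sum_add_distrib, sum_congr rfl fun j _ => hk j]
      simp
    rw [hτ] at h1
    have h2 : (p + 4) * (a + 1) = (p + 4) * a + (p + 4) := by ring
    omega
  have hTT : es k 3 = TT (p + 4) 3 a (r + 1) := by
    refine (hEST.2.1 k 3 a (r + 1) (fun i => ?_) hksum).1
    show (if _ then _ else _) = a ∨ (if _ then _ else _) = a + 1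
    split_ifs
    · exact Or.inl rfl
    · exact Or.inr rfl
  set S : ℝ := (p : ℝ) + 3 - r with hS
  have sσ : ∑ j, (σ j : ℝ) = S := by
    have : ((∑ j, σ j + r : ℕ) : ℝ) = ((p + 3 : ℕ) : ℝ) := by rw [hσ]
    push_cast at this
    rw [hS]; linarith
  have sτ : ∑ j, (τ j : ℝ) = S := by
    have : ((∑ j, τ j : ℕ) : ℝ) = ((p + 3 - r : ℕ) : ℝ) := by rw [hτ]
    push_cast [Nat.cast_sub hr] at this
    rw [hS, this]
  have hτ2 : ∀ j, (τ j : ℝ) ^ 2 = τ j := fun j => by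
    show (((if _ then _ else _ : ℕ)) : ℝ) ^ 2 = ((if _ then _ else _ : ℕ) : ℝ)
    split_ifs <;> simp
  have sτ2 : ∑ j, (τ j : ℝ) ^ 2 = S := by rw [sum_congr rfl fun j _ => hτ2 j, sτ]
  have sτ3 : ∑ j, (τ j : ℝ) ^ 3 = S := by
    rw [sum_congr rfl fun j _ => show (τ j : ℝ) ^ 3 = τ j by
      rw [pow_succ, hτ2 j, ← pow_two, hτ2 j], sτ]
  have e1 := ns1_es (p + 4) a n σ hn
  have e2 := ns1_es (p + 4) a k τ hk
  rw [sσ] at e1
  rw [sτ, sτ2, sτ3, hTT] at e2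
  set q : ℝ := ∑ j, (σ j : ℝ) ^ 2 with hq
  set c : ℝ := ∑ j, (σ j : ℝ) ^ 3 with hc
  have hnr : ∀ j, (n j : ℝ) = a + 1 - σ j := fun j => by
    have : ((n j + σ j : ℕ) : ℝ) = ((a + 1 : ℕ) : ℝ) := by rw [hn j]
    push_cast at this
    linarith
  have t1 : ∑ j, (n j : ℝ) * σ j = (a + 1) * S - q := by
    rw [sum_congr rfl fun j _ => show (n j : ℝ) * σ j = (a + 1) * σ j - (σ j : ℝ) ^ 2 by
      rw [hnr j]; ring, sum_sub_distrib, ← mul_sum, sσ]
  have t2 : ∑ j, (n j : ℝ) * σ j * (σ j + 1) = (a + 1) * q + (a + 1) * S - c - q := by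
    rw [sum_congr rfl fun j _ => show (n j : ℝ) * σ j * (σ j + 1) =
      (a + 1) * (σ j : ℝ) ^ 2 + (a + 1) * σ j - (σ j : ℝ) ^ 3 - (σ j : ℝ) ^ 2 by
        rw [hnr j]; ring, sum_sub_distrib, sum_sub_distrib, sum_add_distrib, ← mul_sum, ← mul_sum,
      sσ]
  -- comparison
  have hle : ∀ j, (σ j : ℝ) ≤ p + 3 := fun j => by
    have h1 : σ j ≤ ∑ j, σ j := single_le_sum (f := σ) (fun _ _ => Nat.zero_le _) (mem_univ j)
    have h2 : σ j ≤ p + 3 := by omega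
    exact_mod_cast h2
  have hqc : c - S ≤ (p + 4) * (q - S) := by
    have h1 : c - S = ∑ j, ((σ j : ℝ) ^ 3 - σ j) := by rw [sum_sub_distrib, sσ]
    have h2 : q - S = ∑ j, ((σ j : ℝ) ^ 2 - σ j) := by rw [sum_sub_distrib, sσ]
    rw [h1, h2, mul_sum]
    refine sum_le_sum fun j _ => ?_
    have h3 : (0 : ℝ) ≤ (σ j : ℝ) ^ 2 - σ j := by
      rcases Nat.eq_zero_or_pos (σ j) with h | h
      · rw [h]; simp
      · have : (1 : ℝ) ≤ σ j := by exact_mod_cast h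
        nlinarith
    have h4 : (σ j : ℝ) ^ 3 - σ j = (σ j + 1) * ((σ j : ℝ) ^ 2 - σ j) := by ring
    rw [h4]
    exact mul_le_mul_of_nonneg_right (by linarith [hle j]) h3
  have hqS : 0 ≤ q - S := by
    have h2 : q - S = ∑ j, ((σ j : ℝ) ^ 2 - σ j) := by rw [sum_sub_distrib, sσ]
    rw [h2]
    refine sum_nonneg fun j _ => ?_
    rcases Nat.eq_zero_or_pos (σ j) with h | h
    · rw [h]; simp
    · have : (1 : ℝ) ≤ σ j := by exact_mod_cast h
      nlinarith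
  have haR : (p : ℝ) + 4 ≤ a := by exact_mod_cast ha
  have hcast : (((p + 3 - r : ℕ) : ℝ)) = S := by
    rw [Nat.cast_sub hr, hS]; push_cast; ring
  have key : Psi p r a 1 n σ = (TT (p + 4) 3 a (r + 1) : ℝ) - 1 / 2 * (S * a) * Xz p r a -
      a / 2 * (q - S) + 1 / 6 * (c - S) := by
    unfold Psi Xz
    rw [t1, t2]
    have e3 : (es n 3 : ℝ) = 1 / 6 * (6 * (es n 3 : ℝ)) := by ring
    have e4 : (TT (p + 4) 3 a (r + 1) : ℝ) = 1 / 6 * (6 * (TT (p + 4) 3 a (r + 1) : ℝ)) := by ring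
    rw [e3, e4, e1, e2]
    have hr' : (r : ℝ) = p + 3 - S := by rw [hS]; ring
    push_cast
    rw [hr']
    ring
  rw [hcast, key]
  have h6 : (p + 4) * (q - S) ≤ a * (q - S) := mul_le_mul_of_nonneg_right haR hqS
  nlinarith

end Pool.HZ7
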